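import Pool.Agent.helper94.EU.SpecII

set_option autoImplicit false

open Finset

namespace Pool.Agent.EU

open Pool.Agent.FI Pool.Agent.FJ

open MeasureTheory

open scoped FourierTransform SchwartzMap ContDiff in
/-- the `L²` Fourier transform is the integral -/
private theorem PLS_ae (h : ℝ → ℂ) (h1 : Integrable h) (h2 : MemLp h 2) :
    ((𝓕 (h2.toLp h) : Lp ℂ 2 (volume : Measure ℝ)) : ℝ → ℂ) =ᵐ[volume] 𝓕 h := by
  have hc : Continuous (𝓕 h) := VectorFourier.fourierIntegral_continuous Real.continuous_fourierChar continuous_inner h1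
  apply ae_eq_of_integral_contDiff_smul_eq
  · exact (Lp.memLp _).locallyIntegrable (by norm_num)
  · exact hc.locallyIntegrable
  · intro g hg hgc
    have hg₁ : HasCompactSupport (Complex.ofRealCLM ∘ g) := hgc.comp_left rfl
    have hg₂ : ContDiff ℝ ∞ (Complex.ofRealCLM ∘ g) := by fun_prop
    set φ : 𝓢(ℝ, ℂ) := hg₁.toSchwartzMap hg₂ with hφ
    have e0 : ∀ x, φ x = ((g x : ℝ) : ℂ) := fun x => rfl
    have e1 : ∫ x, g x • ((𝓕 (h2.toLp h) : Lp ℂ 2 (volume : Measure ℝ)) : ℝ → ℂ) x =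
        Lp.toTemperedDistribution (𝓕 (h2.toLp h) : Lp ℂ 2 (volume : Measure ℝ)) φ := by
      rw [Lp.toTemperedDistribution_apply]
      apply integral_congr_ae
      refine Filter.Eventually.of_forall fun x => ?_
      show g x • _ = φ x • _
      rw [e0, Complex.coe_smul]
    have e2 : Lp.toTemperedDistribution (𝓕 (h2.toLp h) : Lp ℂ 2 (volume : Measure ℝ)) φ =
        Lp.toTemperedDistribution (h2.toLp h) (𝓕 φ) := by
      rw [← Lp.fourier_toTemperedDistribution_eq]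
      rfl
    have e3 : Lp.toTemperedDistribution (h2.toLp h) (𝓕 φ) = ∫ x, (𝓕 φ) x • h x := by
      rw [Lp.toTemperedDistribution_apply]
      apply integral_congr_ae
      filter_upwards [h2.coeFn_toLp] with x hx
      rw [hx]
    have e4 : ∫ x, (𝓕 φ) x • h x = ∫ x, φ x • (𝓕 h) x := by
      rw [SchwartzMap.fourier_coe]
      have h3 := VectorFourier.integral_fourierIntegral_smul_eq_flip (μ := volume) (ν := volume) (L := innerₗ ℝ)
        Real.continuous_fourierChar continuous_inner φ.integrable h1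
      have h4 : (innerₗ ℝ : ℝ →ₗ[ℝ] ℝ →ₗ[ℝ] ℝ).flip = innerₗ ℝ := by
        ext
        simp
      rw [h4] at h3
      exact h3
    rw [e1, e2, e3, e4]
    apply integral_congr_ae
    refine Filter.Eventually.of_forall fun x => ?_
    show φ x • _ = g x • _
    rw [e0, Complex.coe_smul]

private theorem PLS_l2 (f : Lp ℂ 2 (volume : Measure ℝ)) : ‖f‖ ^ 2 = ∫ x, ‖f x‖ ^ 2 := by
  have h1 : (inner ℂ f f : ℂ) = ((‖f‖ ^ 2 : ℝ) : ℂ) := by
    rw [inner_self_eq_norm_sq_to_K]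
    push_cast
    rfl
  rw [L2.inner_def] at h1
  have h2 : ∀ x, (inner ℂ (f x) (f x) : ℂ) = ((‖f x‖ ^ 2 : ℝ) : ℂ) := by
    intro x
    rw [inner_self_eq_norm_sq_to_K]
    push_cast
    rfl
  simp_rw [h2] at h1
  rw [integral_complex_ofReal] at h1
  exact (Complex.ofReal_injective h1).symm

open scoped FourierTransform in
private theorem PLS_main (h : ℝ → ℂ) (h1 : Integrable h) (h2 : MemLp h 2) :
    Integrable (fun x => ‖(𝓕 h) x‖ ^ 2) ∧ ∫ x, ‖(𝓕 h) x‖ ^ 2 = ∫ x, ‖h x‖ ^ 2 := by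
  have hae := PLS_ae h h1 h2
  have hm : MemLp (𝓕 h) 2 := (Lp.memLp (𝓕 (h2.toLp h) : Lp ℂ 2 (volume : Measure ℝ))).ae_eq hae
  refine ⟨hm.integrable_norm_pow (by norm_num), ?_⟩
  have e1 : ∫ x, ‖(𝓕 h) x‖ ^ 2 = ∫ x, ‖((𝓕 (h2.toLp h) : Lp ℂ 2 (volume : Measure ℝ)) : ℝ → ℂ) x‖ ^ 2 := by
    apply integral_congr_ae
    filter_upwards [hae] with x hx
    rw [hx]
  have e2 : ∫ x, ‖h x‖ ^ 2 = ∫ x, ‖(h2.toLp h : ℝ → ℂ) x‖ ^ 2 := by
    apply integral_congr_ae
    filter_upwards [h2.coeFn_toLp] with x hx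
    rw [hx]
  rw [e1, e2, ← PLS_l2, ← PLS_l2, Lp.norm_fourier_eq]

private theorem PLS_mem (ι : Type) (S : Finset ι) (a : ι → ℂ) (u : ι → ℝ) (ρ : ℝ) (q : ENNReal) :
    MemLp (fun s : ℝ => ∑ i ∈ S, a i * (if s < u i ∧ u i ≤ s + ρ then 1 else 0)) q := by
  apply memLp_finsetSum
  intro i _
  have h : (fun s : ℝ => a i * (if s < u i ∧ u i ≤ s + ρ then (1 : ℂ) else 0)) = (Set.Ico (u i - ρ) (u i)).indicator (fun _ => a i) := by
    funext s
    by_cases hs : s < u i ∧ u i ≤ s + ρ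
    · have hm : s ∈ Set.Ico (u i - ρ) (u i) := ⟨by linarith [hs.2], hs.1⟩
      rw [if_pos hs, Set.indicator_of_mem hm, mul_one]
    · have hm : s ∉ Set.Ico (u i - ρ) (u i) := fun hm => hs ⟨hm.2, by linarith [hm.1]⟩
      rw [if_neg hs, Set.indicator_of_notMem hm, mul_zero]
  rw [h]
  exact memLp_indicator_const q measurableSet_Ico _ (Or.inr (by simp))

open scoped FourierTransform in
private theorem PLS_ft (ι : Type) (S : Finset ι) (a : ι → ℂ) (u : ι → ℝ) (ρ : ℝ) (hρ : 0 < ρ) (t : ℝ) (ht : t ≠ 0) :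
    𝓕 (fun s : ℝ => ∑ i ∈ S, a i * (if s < u i ∧ u i ≤ s + ρ then (1 : ℂ) else 0)) t =
      (∑ i ∈ S, a i * Complex.exp (2 * Real.pi * ((-t : ℝ) : ℂ) * u i * Complex.I)) *
        ((Complex.exp (Complex.I * ((2 * Real.pi * ρ * t : ℝ) : ℂ)) - 1) / (2 * Real.pi * t * Complex.I)) := by
  have hc : (-2 * Real.pi * t * Complex.I : ℂ) ≠ 0 := by
    refine mul_ne_zero (mul_ne_zero (mul_ne_zero (by norm_num) ?_) ?_) Complex.I_ne_zero
    · exact_mod_cast Real.pi_ne_zero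
    · exact_mod_cast ht
  have hfun : ∀ i, (fun v : ℝ => Complex.exp (((-2 * Real.pi * v * t : ℝ) : ℂ) * Complex.I) * (a i * (if v < u i ∧ u i ≤ v + ρ then (1 : ℂ) else 0))) =
      (Set.Ico (u i - ρ) (u i)).indicator (fun v : ℝ => a i * Complex.exp ((-2 * Real.pi * t * Complex.I) * v)) := by
    intro i
    funext v
    by_cases hs : v < u i ∧ u i ≤ v + ρ
    · have hm : v ∈ Set.Ico (u i - ρ) (u i) := ⟨by linarith [hs.2], hs.1⟩
      rw [if_pos hs, Set.indicator_of_mem hm, mul_one, mul_comm]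
      congr 2
      push_cast
      ring
    · have hm : v ∉ Set.Ico (u i - ρ) (u i) := fun hm => hs ⟨hm.2, by linarith [hm.1]⟩
      rw [if_neg hs, Set.indicator_of_notMem hm, mul_zero, mul_zero]
  have hint : ∀ i, Integrable (fun v : ℝ => Complex.exp (((-2 * Real.pi * v * t : ℝ) : ℂ) * Complex.I) * (a i * (if v < u i ∧ u i ≤ v + ρ then (1 : ℂ) else 0))) := by
    intro i
    rw [hfun i, integrable_indicator_iff measurableSet_Ico]
    refine (Continuous.integrableOn_Icc (by fun_prop)).mono_set Set.Ico_subset_Icc_self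
  rw [Real.fourier_real_eq_integral_exp_smul]
  simp only [smul_eq_mul, Finset.mul_sum]
  rw [integral_finsetSum _ (fun i _ => hint i), Finset.sum_mul]
  refine Finset.sum_congr rfl fun i _ => ?_
  rw [hfun i, integral_indicator measurableSet_Ico, integral_Ico_eq_integral_Ioc, ← intervalIntegral.integral_of_le (by linarith),
    intervalIntegral.integral_const_mul, integral_exp_mul_complex hc]
  have e1 : Complex.exp (-2 * Real.pi * t * Complex.I * ((u i - ρ : ℝ) : ℂ)) =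
      Complex.exp (2 * Real.pi * ((-t : ℝ) : ℂ) * u i * Complex.I) * Complex.exp (Complex.I * ((2 * Real.pi * ρ * t : ℝ) : ℂ)) := by
    rw [← Complex.exp_add]
    congr 1
    push_cast
    ring
  have e2 : Complex.exp (-2 * Real.pi * t * Complex.I * (u i : ℂ)) = Complex.exp (2 * Real.pi * ((-t : ℝ) : ℂ) * u i * Complex.I) := by
    congr 1
    push_cast
    ring
  rw [e1, e2]
  have hpi : (Real.pi : ℂ) ≠ 0 := by exact_mod_cast Real.pi_ne_zero
  have ht' : (t : ℂ) ≠ 0 := by exact_mod_cast ht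
  have hI := Complex.I_ne_zero
  field_simp
  ring

open scoped FourierTransform in
private theorem PLS_nrm (ι : Type) (S : Finset ι) (a : ι → ℂ) (u : ι → ℝ) (ρ : ℝ) (hρ : 0 < ρ) (t : ℝ) (ht : t ≠ 0) :
    ‖𝓕 (fun s : ℝ => ∑ i ∈ S, a i * (if s < u i ∧ u i ≤ s + ρ then (1 : ℂ) else 0)) t‖ ^ 2 =
      (Real.sin (Real.pi * ρ * (-t)) / (Real.pi * (-t))) ^ 2 *
        ‖∑ i ∈ S, a i * Complex.exp (2 * Real.pi * ((-t : ℝ) : ℂ) * u i * Complex.I)‖ ^ 2 := by
  rw [PLS_ft ι S a u ρ hρ t ht, norm_mul, mul_pow, mul_comm]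
  congr 1
  rw [norm_div, Complex.norm_exp_I_mul_ofReal_sub_one, norm_mul _ Complex.I, Complex.norm_I, mul_one]
  have e1 : ‖(2 * Real.pi * t : ℂ)‖ = |2 * Real.pi * t| := by
    rw [← Real.norm_eq_abs, ← Complex.norm_real]
    push_cast
    rfl
  rw [e1, Real.norm_eq_abs, ← abs_div, sq_abs]
  have e2 : 2 * Real.pi * ρ * t / 2 = Real.pi * ρ * t := by ring
  have e3 : Real.pi * ρ * (-t) = -(Real.pi * ρ * t) := by ring
  rw [e2, e3, Real.sin_neg]
  have hpi := Real.pi_ne_zero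
  field_simp

theorem PLS : PLS_stmt := by
  intro ι S a u ρ hρ
  have h1 : Integrable (fun s : ℝ => ∑ i ∈ S, a i * (if s < u i ∧ u i ≤ s + ρ then (1 : ℂ) else 0)) :=
    memLp_one_iff_integrable.1 (PLS_mem ι S a u ρ 1)
  obtain ⟨m1, m2⟩ := PLS_main _ h1 (PLS_mem ι S a u ρ 2)
  set G : ℝ → ℝ := fun t => (Real.sin (Real.pi * ρ * t) / (Real.pi * t)) ^ 2 *
    ‖∑ i ∈ S, a i * Complex.exp (2 * Real.pi * t * u i * Complex.I)‖ ^ 2 with hG
  have hae : (fun t : ℝ => ‖FourierTransform.fourier (fun s : ℝ => ∑ i ∈ S, a i * (if s < u i ∧ u i ≤ s + ρ then (1 : ℂ) else 0)) t‖ ^ 2)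
      =ᵐ[volume] fun t => G (-t) := by
    have h0 : ∀ᵐ t : ℝ, t ≠ 0 := by
      rw [ae_iff]
      simp
    filter_upwards [h0] with t ht
    rw [PLS_nrm ι S a u ρ hρ t ht]
  have hi : Integrable fun t => G (-t) := m1.congr hae
  have hi2 : Integrable G := by
    have := hi.comp_neg
    simpa using this
  refine ⟨hi2, ?_⟩
  rw [← m2, integral_congr_ae hae]
  exact integral_neg_eq_self G volume

end Pool.Agent.EU
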