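import Pool.Agent.helper94.EU.SpecII

set_option autoImplicit false

open Finset

namespace Pool.Agent.EU

open Pool.Agent.FI Pool.Agent.FJ

private theorem PRM_sinh (a : ℝ) (ha : |a| ≤ 3) : |Real.sinh a| ≤ Real.cosh 3 * |a| := by
  have h := Convex.norm_image_sub_le_of_norm_deriv_le (f := Real.sinh) (s := Set.Icc (-3 : ℝ) 3) (C := Real.cosh 3) (x := 0) (y := a)
    (fun x _ => Real.differentiable_sinh x) (fun x hx => ?_) (convex_Icc _ _) ⟨by norm_num, by norm_num⟩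
    ⟨by linarith [abs_le.1 ha], (abs_le.1 ha).2⟩
  · simpa [Real.norm_eq_abs] using h
  · rw [Real.deriv_sinh, Real.norm_eq_abs, abs_of_pos (Real.cosh_pos x), Real.cosh_le_cosh, abs_of_pos (by norm_num : (0 : ℝ) < 3), abs_le]
    exact ⟨hx.1, hx.2⟩

private theorem PRM_self (a : ℝ) : |a| ≤ |Real.sinh a| := by
  rw [Real.abs_sinh]
  exact Real.self_le_sinh_iff.2 (abs_nonneg a)

private theorem PRM_core (N w h δ U K K₁ m D : ℝ) (hN : 1 ≤ N) (hw1 : N ≤ w) (hw2 : w ≤ 2 * N) (hK₁ : 1 ≤ K₁) (hK : 2 * K₁ ≤ K)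
    (hU : h * K = U) (hh0 : 0 < h) (hδ1 : m * h - h < 2 * δ)
    (hδ2 : 2 * δ < m * h + h) (hδ3 : |δ| ≤ 2) (hD : √8 * D = w * |Real.sinh δ|) (hD0 : 0 ≤ D) :
    (D ≤ N * U → |m| ≤ 7 * K) ∧ (K₁ * |m| < K → D ≤ Real.cosh 3 * (N * (U / K₁))) := by
  have hKp : 0 < K := by linarith
  have hU0 : 0 < U := by rw [← hU]; positivity
  have hc3 : 1 ≤ Real.cosh 3 := Real.one_le_cosh 3
  have h8a : √8 ≤ 285 / 100 := Real.sqrt_le_iff.2 ⟨by norm_num, by norm_num⟩
  have h8b : 2 ≤ √8 := Real.le_sqrt_of_sq_le (by norm_num)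
  have hwp : 0 < w := by linarith
  constructor
  · intro h1
    -- `N |δ| ≤ w |sinh δ| = √8 D ≤ 2.85 N U`
    have e1 : N * |δ| ≤ w * |Real.sinh δ| := mul_le_mul hw1 (PRM_self δ) (abs_nonneg _) hwp.le
    have e2 : √8 * D ≤ 285 / 100 * (N * U) := mul_le_mul h8a h1 hD0 (by norm_num)
    have e3 : N * |δ| ≤ N * (285 / 100 * U) := by
      calc N * |δ| ≤ √8 * D := by rw [hD]; exact e1
        _ ≤ 285 / 100 * (N * U) := e2
        _ = N * (285 / 100 * U) := by ring
    have e4 : |δ| ≤ 285 / 100 * U := le_of_mul_le_mul_left e3 (by linarith)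
    have e5 : |m * h| ≤ 2 * |δ| + h := by
      have h3 : |m * h| ≤ |2 * δ| + |m * h - 2 * δ| := by
        have := abs_add_le (2 * δ) (m * h - 2 * δ)
        rwa [add_sub_cancel] at this
      have h4 : |m * h - 2 * δ| ≤ h := by rw [abs_le]; constructor <;> linarith
      rw [abs_mul, abs_mul, abs_of_pos (by norm_num : (0 : ℝ) < 2)] at h3
      rw [abs_mul]
      linarith
    rw [abs_mul, abs_of_pos hh0] at e5
    have e6 : |m| * h ≤ (7 * K) * h := by
      have e7 : U = K * h := by rw [← hU]; ring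
      have e8 : h ≤ K * h := by nlinarith
      nlinarith
    exact le_of_mul_le_mul_right e6 hh0
  · intro h1
    have e1 : |2 * δ| ≤ |m * h| + h := by
      have h3 : |2 * δ| ≤ |m * h| + |2 * δ - m * h| := by
        have := abs_add_le (m * h) (2 * δ - m * h)
        rwa [add_sub_cancel] at this
      have h4 : |2 * δ - m * h| ≤ h := by rw [abs_le]; constructor <;> linarith
      linarith
    rw [abs_mul, abs_mul, abs_of_pos hh0, abs_of_pos (by norm_num : (0 : ℝ) < 2)] at e1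
    have e2 : K₁ * |δ| ≤ U := by
      have e7 : U = K * h := by rw [← hU]; ring
      have e8 : K₁ * (|m| * h) ≤ K * h := by
        rw [← mul_assoc]
        exact mul_le_mul_of_nonneg_right h1.le hh0.le
      have e9 : K₁ * h ≤ K * h := mul_le_mul_of_nonneg_right (by linarith) hh0.le
      have e10 : K₁ * (2 * |δ|) ≤ K₁ * (|m| * h + h) := mul_le_mul_of_nonneg_left e1 (by linarith)
      nlinarith
    have e3 : |δ| ≤ U / K₁ := by
      rw [le_div_iff₀ (by linarith), mul_comm]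
      exact e2
    have e4 : 2 * D ≤ √8 * D := mul_le_mul_of_nonneg_right h8b hD0
    rw [hD] at e4
    have e5 : w * |Real.sinh δ| ≤ 2 * N * (Real.cosh 3 * (U / K₁)) :=
      mul_le_mul hw2 ((PRM_sinh δ (by linarith)).trans (mul_le_mul_of_nonneg_left e3 (by linarith))) (abs_nonneg _) (by linarith)
    nlinarith

theorem PRM (hGEO : GEO_stmt) (hWND : WND_stmt) : PRM_stmt := by
  classical
  have hc3 : 1 ≤ Real.cosh 3 := Real.one_le_cosh 3
  refine ⟨Real.cosh 3, by positivity, fun x N A K K₁ hx hN hA hAx hK₁ hK θ z hz z' hz' hsgn => ?_⟩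
  obtain ⟨g1, -, g3⟩ := hGEO N hN z hz z' hz' hsgn
  have hx' : (1 : ℝ) ≤ x := by exact_mod_cast hx
  have hN' : (1 : ℝ) ≤ N := by exact_mod_cast hN
  have hA' : (1 : ℝ) ≤ A := by exact_mod_cast hA
  have hK₁' : (1 : ℝ) ≤ K₁ := by exact_mod_cast hK₁
  have hK' : 2 * (K₁ : ℝ) ≤ K := by exact_mod_cast hK
  have hKp : (0 : ℝ) < K := by linarith
  have hhp : 0 < hh x A K := by unfold hh; positivity
  have hW := hWND.2.1 (hh x A K) θ z z' hhp
  have hUeq : hh x A K * K = (A : ℝ) / x := by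
    unfold hh
    field_simp
  have hzf : ∀ z ∈ ZD N, (N : ℝ) ≤ nn z ∧ (nn z : ℝ) ≤ 2 * N := by
    intro z hz
    unfold ZD FF at hz
    simp only [mem_filter] at hz
    refine ⟨by exact_mod_cast hz.2.1.le, by exact_mod_cast hz.1.2.2⟩
  obtain ⟨a1, a2⟩ := hzf _ hz
  obtain ⟨b1, b2⟩ := hzf _ hz'
  have hw1 : (N : ℝ) ≤ √(nn z) * √(nn z') := by
    rw [← Real.sqrt_mul (Nat.cast_nonneg _)]
    refine Real.le_sqrt_of_sq_le ?_
    rw [pow_two]
    exact mul_le_mul a1 b1 (by linarith) (by linarith)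
  have hw2 : √(nn z) * √(nn z') ≤ 2 * (N : ℝ) := by
    rw [← Real.sqrt_mul (Nat.cast_nonneg _)]
    refine Real.sqrt_le_iff.2 ⟨by linarith, ?_⟩
    rw [pow_two]
    exact mul_le_mul a2 b2 (Nat.cast_nonneg _) (by linarith)
  have hsg : |((N8 z).sign : ℝ)| = 1 := by
    have h1 : N8 z ≠ 0 := by
      intro h
      have : nn z = 0 := by unfold nn; rw [h]; rfl
      rw [this] at a1
      norm_num at a1
      linarith
    rcases lt_or_gt_of_ne h1 with h | h
    · rw [Int.sign_eq_neg_one_of_neg h]; norm_num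
    · rw [Int.sign_eq_one_of_pos h]; norm_num
  have hD : √8 * ((dl z z').natAbs : ℝ) = √(nn z) * √(nn z') * |Real.sinh (dd z z')| := by
    have h1 : ((dl z z').natAbs : ℝ) = |(dl z z' : ℝ)| := by
      rw [← Int.cast_abs, Int.abs_eq_natAbs]
      rfl
    have h2 : |√8 * (dl z z' : ℝ)| = |((N8 z).sign : ℝ)| * |√(nn z) * √(nn z') * Real.sinh (dd z z')| := by
      rw [g1, abs_mul]
    have h3 : |√8 * (dl z z' : ℝ)| = √8 * |(dl z z' : ℝ)| := by rw [abs_mul, abs_of_nonneg (Real.sqrt_nonneg _)]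
    have h4 : |√(nn z) * √(nn z') * Real.sinh (dd z z')| = √(nn z) * √(nn z') * |Real.sinh (dd z z')| := by
      rw [abs_mul, abs_of_nonneg (mul_nonneg (Real.sqrt_nonneg _) (Real.sqrt_nonneg _))]
    rw [h1, ← h3, h2, hsg, one_mul, h4]
  have hdd : yy z - yy z' = 2 * dd z z' := by unfold dd; ring
  rw [hdd] at hW
  obtain ⟨m, hm⟩ : ∃ m : ℤ, m = kk (hh x A K) θ z - kk (hh x A K) θ z' := ⟨_, rfl⟩
  rw [← hm] at hW ⊢
  obtain ⟨c1, c2⟩ := PRM_core N (√(nn z) * √(nn z')) (hh x A K) (dd z z') (A / x) K K₁ m ((dl z z').natAbs)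
    hN' hw1 hw2 hK₁' hK' hUeq hhp hW.1 hW.2 g3 hD (Nat.cast_nonneg _)
  constructor
  · intro h
    have h1 : ((dl z z').natAbs : ℝ) ≤ N * (A / x) := by
      rw [← mul_div_assoc, le_div_iff₀ (by linarith), mul_comm]
      exact_mod_cast h
    have h2 := c1 h1
    have h3 : ((|m| : ℤ) : ℝ) ≤ ((7 * K : ℤ) : ℝ) := by
      push_cast
      exact h2
    exact_mod_cast h3
  · intro h
    have h1 : (K₁ : ℝ) * |(m : ℝ)| < K := by
      have : ((K₁ * |m| : ℤ) : ℝ) < ((K : ℤ) : ℝ) := by exact_mod_cast h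
      push_cast at this
      exact this
    refine (c2 h1).trans (le_of_eq ?_)
    field_simp

end Pool.Agent.EU
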