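import Pool.Agent.helper52.EU.SpecW

set_option autoImplicit false

open Finset

namespace Pool.Agent.EU

open Pool.Agent.FI Pool.Agent.HK Pool.Agent.BP
open Pool.Agent.CH (nit)

/-! ### sums over a progression and integrals -/

private theorem WNI_step (F : ℝ → ℂ) (A B D : ℝ) (q : ℕ) (hq : 1 ≤ q) (hD : 0 ≤ D)
    (hF : ∀ v w, A ≤ v → v ≤ B → A ≤ w → w ≤ B → ‖F v - F w‖ ≤ D * |v - w|)
    (hc : ContinuousOn F (Set.Icc A B)) (x : ℝ) (h0 : A ≤ x) (h1 : x + q ≤ B) :
    ‖F x - 1 / (q : ℂ) * ∫ v in x..(x + q), F v‖ ≤ D * q := by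
  have hq' : (0 : ℝ) < q := by exact_mod_cast hq
  have hqc : (q : ℂ) ≠ 0 := by exact_mod_cast hq'.ne'
  have hi : IntervalIntegrable F MeasureTheory.volume x (x + q) := by
    apply ContinuousOn.intervalIntegrable_of_Icc (by linarith)
    exact hc.mono (Set.Icc_subset_Icc h0 h1)
  have e1 : F x - 1 / (q : ℂ) * ∫ v in x..(x + q), F v = 1 / (q : ℂ) * ∫ v in x..(x + q), (F x - F v) := by
    rw [intervalIntegral.integral_sub intervalIntegrable_const hi, intervalIntegral.integral_const,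
      show x + (q : ℝ) - x = q by ring, Complex.real_smul]
    push_cast
    field_simp
  have e2 : ‖∫ v in x..(x + q), (F x - F v)‖ ≤ D * q * |x + q - x| := by
    apply intervalIntegral.norm_integral_le_of_norm_le_const
    intro v hv
    rw [Set.uIoc_of_le (by linarith)] at hv
    refine (hF x v h0 (by linarith) (by linarith [hv.1]) (by linarith [hv.2])).trans ?_
    apply mul_le_mul_of_nonneg_left _ hD
    rw [abs_sub_comm, abs_of_pos (by linarith [hv.1])]
    linarith [hv.2]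
  rw [show x + (q : ℝ) - x = q by ring, abs_of_pos hq'] at e2
  rw [e1, norm_mul, norm_div, norm_one, Complex.norm_natCast]
  calc 1 / (q : ℝ) * ‖∫ v in x..(x + q), (F x - F v)‖ ≤ 1 / (q : ℝ) * (D * q * q) :=
        mul_le_mul_of_nonneg_left e2 (by positivity)
    _ = D * q := by field_simp

private theorem WNI_prog (F : ℝ → ℂ) (A B D : ℝ) (q : ℕ) (hq : 1 ≤ q) (hD : 0 ≤ D)
    (hF : ∀ v w, A ≤ v → v ≤ B → A ≤ w → w ≤ B → ‖F v - F w‖ ≤ D * |v - w|)
    (hc : ContinuousOn F (Set.Icc A B)) (m₀ : ℝ) (h0 : A ≤ m₀) (k : ℕ) (hk : m₀ + k * q ≤ B) :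
    ‖∑ i ∈ range k, F (m₀ + i * q) - 1 / (q : ℂ) * ∫ v in m₀..(m₀ + k * q), F v‖ ≤ k * (D * q) := by
  have hq' : (0 : ℝ) < q := by exact_mod_cast hq
  induction k with
  | zero => simp
  | succ k ih =>
    have hk0 : (0 : ℝ) ≤ k * q := by positivity
    have hk' : m₀ + (k : ℝ) * q + q ≤ B := by push_cast at hk; linarith
    have hk1 : m₀ + (k : ℝ) * q ≤ B := by linarith
    have e0 : m₀ + ((k + 1 : ℕ) : ℝ) * q = m₀ + (k : ℝ) * q + q := by push_cast; ring
    have i1 : IntervalIntegrable F MeasureTheory.volume m₀ (m₀ + k * q) := by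
      apply ContinuousOn.intervalIntegrable_of_Icc (by linarith)
      exact hc.mono (Set.Icc_subset_Icc h0 hk1)
    have i2 : IntervalIntegrable F MeasureTheory.volume (m₀ + k * q) (m₀ + k * q + q) := by
      apply ContinuousOn.intervalIntegrable_of_Icc (by linarith)
      exact hc.mono (Set.Icc_subset_Icc (by linarith) hk')
    rw [e0, sum_range_succ, ← intervalIntegral.integral_add_adjacent_intervals i1 i2]
    have e1 := WNI_step F A B D q hq hD hF hc (m₀ + k * q) (by linarith) hk'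
    have e2 : ∑ i ∈ range k, F (m₀ + i * q) + F (m₀ + k * q)
          - 1 / (q : ℂ) * ((∫ v in m₀..(m₀ + k * q), F v) + ∫ v in (m₀ + k * q)..(m₀ + k * q + q), F v)
        = (∑ i ∈ range k, F (m₀ + i * q) - 1 / (q : ℂ) * ∫ v in m₀..(m₀ + k * q), F v)
          + (F (m₀ + k * q) - 1 / (q : ℂ) * ∫ v in (m₀ + k * q)..(m₀ + k * q + q), F v) := by ring
    rw [e2]
    refine (norm_add_le _ _).trans ?_
    refine (add_le_add (ih hk1) e1).trans ?_
    push_cast
    linarith

private theorem WNI_short (F : ℝ → ℂ) (A B : ℝ) (q : ℕ) (hq : 1 ≤ q) (hAB : A ≤ B) (hl : B - A ≤ q)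
    (hF1 : ∀ v, A ≤ v → v ≤ B → ‖F v‖ ≤ 1) : ‖1 / (q : ℂ) * ∫ v in A..B, F v‖ ≤ 1 := by
  have hq' : (0 : ℝ) < q := by exact_mod_cast hq
  have e2 : ‖∫ v in A..B, F v‖ ≤ 1 * |B - A| := by
    apply intervalIntegral.norm_integral_le_of_norm_le_const
    intro v hv
    rw [Set.uIoc_of_le hAB] at hv
    exact hF1 v hv.1.le hv.2
  rw [abs_of_nonneg (by linarith), one_mul] at e2
  rw [norm_mul, norm_div, norm_one, Complex.norm_natCast]
  calc 1 / (q : ℝ) * ‖∫ v in A..B, F v‖ ≤ 1 / (q : ℝ) * q :=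
        mul_le_mul_of_nonneg_left (e2.trans hl) (by positivity)
    _ = 1 := by field_simp

private theorem WNI_gl (F : ℝ → ℂ) (A B D : ℝ) (q : ℕ) (c : ℤ) (S : Finset ℤ) (hq : 1 ≤ q) (hD : 0 ≤ D)
    (hAB : A ≤ B) (hF1 : ∀ v, A ≤ v → v ≤ B → ‖F v‖ ≤ 1)
    (hF : ∀ v w, A ≤ v → v ≤ B → A ≤ w → w ≤ B → ‖F v - F w‖ ≤ D * |v - w|)
    (hS1 : ∀ m ∈ S, A ≤ (m : ℝ) ∧ (m : ℝ) ≤ B ∧ (q : ℤ) ∣ m - c)
    (hS2 : ∀ m : ℤ, A < m → (m : ℝ) < B → (q : ℤ) ∣ m - c → m ∈ S) :
    ‖∑ m ∈ S, F m - 1 / (q : ℂ) * ∫ v in A..B, F v‖ ≤ 3 + D * (B - A) := by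
  have hq' : (0 : ℝ) < q := by exact_mod_cast hq
  have hqz : (0 : ℤ) < q := by exact_mod_cast hq
  have hc : ContinuousOn F (Set.Icc A B) := by
    have : LipschitzOnWith D.toNNReal F (Set.Icc A B) := by
      apply LipschitzOnWith.of_dist_le_mul
      intro v hv w hw
      rw [dist_eq_norm, Real.dist_eq, Real.coe_toNNReal _ hD]
      exact hF v w hv.1 hv.2 hw.1 hw.2
    exact this.continuousOn
  have hDn : 0 ≤ D * (B - A) := mul_nonneg hD (by linarith)
  rcases S.eq_empty_or_nonempty with he | hne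
  · -- no point: the interval is short
    have hl : B - A ≤ q := by
      by_contra hcon
      push Not at hcon
      set j := ⌊(A - c) / q⌋ + 1 with hj
      have h1 : (A - c) / q < (j : ℝ) := by
        rw [hj]; push_cast; exact Int.lt_floor_add_one _
      have h2 : (j : ℝ) ≤ (A - c) / q + 1 := by
        rw [hj]; push_cast; linarith [Int.floor_le ((A - c) / (q : ℝ))]
      have h3 : A - c < j * q := by rwa [div_lt_iff₀ hq'] at h1
      have h4 : (j : ℝ) * q ≤ A - c + q := by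
        calc (j : ℝ) * q ≤ ((A - c) / q + 1) * q := mul_le_mul_of_nonneg_right h2 hq'.le
          _ = A - c + q := by field_simp
      have h5 : c + j * q ∈ S := by
        apply hS2
        · push_cast; linarith
        · push_cast; linarith
        · exact ⟨j, by ring⟩
      rw [he] at h5
      exact absurd h5 (Finset.notMem_empty _)
    rw [he, sum_empty, zero_sub, norm_neg]
    have := WNI_short F A B q hq hAB hl hF1
    linarith
  · set m₀ := S.min' hne with hm₀
    set m₁ := S.max' hne with hm₁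
    have h0S : m₀ ∈ S := S.min'_mem hne
    have h1S : m₁ ∈ S := S.max'_mem hne
    obtain ⟨a0, b0, c0⟩ := hS1 m₀ h0S
    obtain ⟨a1, b1, c1⟩ := hS1 m₁ h1S
    have h01 : m₀ ≤ m₁ := S.min'_le _ h1S
    obtain ⟨k', hk'⟩ : (q : ℤ) ∣ m₁ - m₀ := by
      have : m₁ - m₀ = (m₁ - c) - (m₀ - c) := by ring
      rw [this]; exact dvd_sub c1 c0
    have hk0 : 0 ≤ k' := by
      by_contra hcon
      push Not at hcon
      nlinarith
    obtain ⟨k, rfl⟩ := Int.eq_ofNat_of_zero_le hk0
    have hm1 : m₁ = m₀ + k * q := by linarith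
    have hm1' : (m₁ : ℝ) = m₀ + k * q := by rw [hm1]; push_cast; ring
    have hA : (m₀ : ℝ) - A ≤ q := by
      by_contra hcon
      push Not at hcon
      have : m₀ - q ∈ S := by
        apply hS2
        · push_cast; linarith
        · push_cast; linarith
        · have e : m₀ - q - c = (m₀ - c) - q := by ring
          rw [e]; exact dvd_sub c0 dvd_rfl
      have := S.min'_le _ this
      rw [← hm₀] at this
      linarith
    have hB : B - (m₁ : ℝ) ≤ q := by
      by_contra hcon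
      push Not at hcon
      have : m₁ + q ∈ S := by
        apply hS2
        · push_cast; linarith
        · push_cast; linarith
        · have e : m₁ + q - c = (m₁ - c) + q := by ring
          rw [e]; exact dvd_add c1 dvd_rfl
      have := S.le_max' _ this
      rw [← hm₁] at this
      linarith
    have hSe : S = (range (k + 1)).image (fun i : ℕ => m₀ + (i : ℤ) * q) := by
      ext m
      rw [mem_image]
      constructor
      · intro hm
        obtain ⟨_, _, cm⟩ := hS1 m hm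
        obtain ⟨j, hj⟩ : (q : ℤ) ∣ m - m₀ := by
          have : m - m₀ = (m - c) - (m₀ - c) := by ring
          rw [this]; exact dvd_sub cm c0
        have g0 : m₀ ≤ m := S.min'_le _ hm
        have g1 : m ≤ m₁ := S.le_max' _ hm
        have j0 : 0 ≤ j := by
          by_contra hcon
          push Not at hcon
          nlinarith
        obtain ⟨i, rfl⟩ := Int.eq_ofNat_of_zero_le j0
        refine ⟨i, ?_, by linarith⟩
        rw [mem_range]
        have : (q : ℤ) * i ≤ q * k := by linarith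
        have := le_of_mul_le_mul_left this hqz
        omega
      · rintro ⟨i, hi, rfl⟩
        rw [mem_range] at hi
        rcases Nat.eq_zero_or_pos i with hi0 | hi0
        · rw [hi0]; simpa using h0S
        · rcases Nat.lt_or_ge i k with hik | hik
          · apply hS2
            · push_cast
              have : (0 : ℝ) < i * q := by
                have : (0 : ℝ) < i := by exact_mod_cast hi0
                positivity
              linarith
            · push_cast
              have : (i : ℝ) * q < k * q := by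
                apply mul_lt_mul_of_pos_right _ hq'
                exact_mod_cast hik
              linarith
            · have e : m₀ + (i : ℤ) * q - c = (m₀ - c) + i * q := by ring
              rw [e]; exact dvd_add c0 (dvd_mul_left _ _)
          · have : i = k := by omega
            rw [this, ← hm1]; exact h1S
    have hinj : Set.InjOn (fun i : ℕ => m₀ + (i : ℤ) * q) (range (k + 1)) := by
      intro i _ j _ hij
      have : (i : ℤ) * q = j * q := by simpa using hij
      have := mul_right_cancel₀ hqz.ne' this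
      exact_mod_cast this
    have hsum : ∑ m ∈ S, F m = ∑ i ∈ range k, F ((m₀ : ℝ) + i * q) + F m₁ := by
      rw [hSe, sum_image hinj, sum_range_succ]
      congr 1
      · apply sum_congr rfl
        intro i _
        push_cast
        rfl
      · rw [hm1']
        push_cast
        rfl
    have i0 : IntervalIntegrable F MeasureTheory.volume A m₀ := by
      apply ContinuousOn.intervalIntegrable_of_Icc a0
      exact hc.mono (Set.Icc_subset_Icc le_rfl b0)
    have i1 : IntervalIntegrable F MeasureTheory.volume m₀ m₁ := by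
      apply ContinuousOn.intervalIntegrable_of_Icc (by exact_mod_cast h01)
      exact hc.mono (Set.Icc_subset_Icc a0 b1)
    have i2 : IntervalIntegrable F MeasureTheory.volume m₁ B := by
      apply ContinuousOn.intervalIntegrable_of_Icc b1
      exact hc.mono (Set.Icc_subset_Icc a1 le_rfl)
    have hI : ∫ v in A..B, F v = (∫ v in A..(m₀ : ℝ), F v) + (∫ v in (m₀ : ℝ)..(m₁ : ℝ), F v) + ∫ v in (m₁ : ℝ)..B, F v := by
      rw [intervalIntegral.integral_add_adjacent_intervals i0 i1,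
        intervalIntegral.integral_add_adjacent_intervals (i0.trans i1) i2]
    have t1 := WNI_prog F A B D q hq hD hF hc m₀ a0 k (by rw [← hm1']; exact b1)
    rw [← hm1'] at t1
    have t2 := hF1 m₁ a1 b1
    have t3 := WNI_short F A m₀ q hq a0 hA (fun v h1 h2 => hF1 v h1 (h2.trans b0))
    have t4 := WNI_short F m₁ B q hq b1 hB (fun v h1 h2 => hF1 v (a1.trans h1) h2)
    have e : ∑ m ∈ S, F m - 1 / (q : ℂ) * ∫ v in A..B, F v
        = (∑ i ∈ range k, F ((m₀ : ℝ) + i * q) - 1 / (q : ℂ) * ∫ v in (m₀ : ℝ)..(m₁ : ℝ), F v) + F m₁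
          - 1 / (q : ℂ) * (∫ v in A..(m₀ : ℝ), F v) - 1 / (q : ℂ) * ∫ v in (m₁ : ℝ)..B, F v := by
      rw [hsum, hI]; ring
    rw [e]
    have t5 : (k : ℝ) * (D * q) ≤ D * (B - A) := by
      have : (k : ℝ) * q ≤ B - A := by linarith
      calc (k : ℝ) * (D * q) = D * (k * q) := by ring
        _ ≤ D * (B - A) := mul_le_mul_of_nonneg_left this hD
    calc _ ≤ ‖(∑ i ∈ range k, F ((m₀ : ℝ) + i * q) - 1 / (q : ℂ) * ∫ v in (m₀ : ℝ)..(m₁ : ℝ), F v)‖ + ‖F m₁‖
          + ‖1 / (q : ℂ) * (∫ v in A..(m₀ : ℝ), F v)‖ + ‖1 / (q : ℂ) * ∫ v in (m₁ : ℝ)..B, F v‖ := by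
          refine (norm_sub_le _ _).trans (add_le_add ?_ le_rfl)
          refine (norm_sub_le _ _).trans (add_le_add ?_ le_rfl)
          exact norm_add_le _ _
      _ ≤ D * (B - A) + 1 + 1 + 1 := by gcongr; exact t1.trans t5
      _ = 3 + D * (B - A) := by ring

private theorem WNI_s8 : √(8 : ℝ) * √8 = 8 := Real.mul_self_sqrt (by norm_num)

private theorem WNI_lep : Real.cosh lep = 3 := by
  have h8 := WNI_s8
  have h0 : (0 : ℝ) < √8 := Real.sqrt_pos.mpr (by norm_num)
  have h3 : √(8 : ℝ) ^ 2 = 8 := by rw [sq]; exact h8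
  rw [lep, Real.cosh_log (by positivity)]
  have : (3 + √8 : ℝ)⁻¹ = 3 - √8 := by
    rw [inv_eq_one_div, div_eq_iff (by positivity)]
    nlinarith
  rw [this]; ring

private theorem WNI_c2 (u : ℝ) (h0 : -lep ≤ u) (h1 : u ≤ lep) : Real.cosh (u / 2) ^ 2 ≤ 2 := by
  have h2 : Real.cosh u ≤ Real.cosh lep := by
    rw [Real.cosh_le_cosh]
    rw [abs_of_nonneg (by linarith : 0 ≤ lep)]
    exact abs_le.mpr ⟨h0, h1⟩
  have h3 := Real.cosh_two_mul (u / 2)
  rw [show 2 * (u / 2) = u by ring] at h3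
  have h4 := Real.cosh_sq (u / 2)
  rw [WNI_lep] at h2
  linarith

private theorem WNI_nit1 (t x : ℝ) : ‖nit t x‖ = 1 := by
  unfold nit
  exact Complex.norm_exp_ofReal_mul_I _

private theorem WNI_nitL (t x y : ℝ) : ‖nit t x - nit t y‖ ≤ |t| * |Real.log x - Real.log y| := by
  have e : nit t x - nit t y = nit t y * (Complex.exp (Complex.I * ((t * (Real.log x - Real.log y) : ℝ) : ℂ)) - 1) := by
    unfold nit
    rw [mul_sub, mul_one, ← Complex.exp_add]
    congr 2
    push_cast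
    ring
  rw [e, norm_mul, WNI_nit1, one_mul]
  refine (Real.norm_exp_I_mul_ofReal_sub_one_le).trans ?_
  rw [Real.norm_eq_abs, abs_mul]

private theorem WNI_logL (x y m : ℝ) (hm : 0 < m) (hx : m ≤ x) (hy : m ≤ y) :
    |Real.log x - Real.log y| ≤ |x - y| / m := by
  have key : ∀ x y : ℝ, m ≤ x → m ≤ y → Real.log x - Real.log y ≤ |x - y| / m := by
    intro x y hx hy
    have hx' : 0 < x := by linarith
    have hy' : 0 < y := by linarith
    rw [← Real.log_div hx'.ne' hy'.ne']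
    refine (Real.log_le_sub_one_of_pos (by positivity)).trans ?_
    have : x / y - 1 = (x - y) / y := by field_simp
    rw [this]
    refine (div_le_div_of_nonneg_right (le_abs_self _) hy'.le).trans ?_
    exact div_le_div_of_nonneg_left (abs_nonneg _) hm hy
  rw [abs_le]
  constructor
  · have := key y x hy hx
    rw [abs_sub_comm] at this
    linarith
  · exact key x y hx hy

/-! ### the sum over the rows -/

/-- the density as a function of the real outer coordinate -/
private noncomputable def WNI_G (a b S t v : ℝ) : ℂ := nit t (a * v ^ 2 / S) * ((b * v / (2 * S) : ℝ) : ℂ)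

private theorem WNI_norm (a b S t v : ℝ) (hb : 0 < b) (hS : 0 < S) (hv : 0 ≤ v) : ‖WNI_G a b S t v‖ = b * v / (2 * S) := by
  unfold WNI_G
  rw [norm_mul, WNI_nit1, one_mul, Complex.norm_real, Real.norm_eq_abs, abs_of_nonneg (by positivity)]

private theorem WNI_lip1 (a b S t v w : ℝ) (ha : 0 < a) (hb : 0 < b) (hS : 0 < S) (hv : 0 < v) (hvw : v ≤ w) :
    ‖WNI_G a b S t v - WNI_G a b S t w‖ ≤ (2 * |t| + 1) * (b / (2 * S)) * |v - w| := by
  have hw : 0 < w := lt_of_lt_of_le hv hvw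
  have e : WNI_G a b S t v - WNI_G a b S t w = (nit t (a * v ^ 2 / S) - nit t (a * w ^ 2 / S)) * ((b * v / (2 * S) : ℝ) : ℂ) +
      nit t (a * w ^ 2 / S) * ((b * (v - w) / (2 * S) : ℝ) : ℂ) := by
    unfold WNI_G
    push_cast
    ring
  have e1 : Real.log (a * v ^ 2 / S) - Real.log (a * w ^ 2 / S) = 2 * (Real.log v - Real.log w) := by
    rw [Real.log_div (by positivity) hS.ne', Real.log_div (by positivity) hS.ne', Real.log_mul ha.ne' (by positivity),
      Real.log_mul ha.ne' (by positivity), Real.log_pow, Real.log_pow]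
    push_cast
    ring
  have h1 : ‖nit t (a * v ^ 2 / S) - nit t (a * w ^ 2 / S)‖ ≤ |t| * (2 * (|v - w| / v)) := by
    refine (WNI_nitL _ _ _).trans ?_
    rw [e1, abs_mul, abs_of_pos (by norm_num : (0 : ℝ) < 2)]
    have := WNI_logL v w v hv le_rfl hvw
    gcongr
  rw [e]
  refine (norm_add_le _ _).trans ?_
  rw [norm_mul, norm_mul, WNI_nit1, one_mul, Complex.norm_real, Complex.norm_real, Real.norm_eq_abs, Real.norm_eq_abs,
    abs_of_nonneg (by positivity : 0 ≤ b * v / (2 * S)), abs_div, abs_mul, abs_of_pos hb, abs_of_pos (by positivity : 0 < 2 * S)]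
  have h2 : ‖nit t (a * v ^ 2 / S) - nit t (a * w ^ 2 / S)‖ * (b * v / (2 * S)) ≤ |t| * (2 * (|v - w| / v)) * (b * v / (2 * S)) :=
    mul_le_mul_of_nonneg_right h1 (by positivity)
  have h3 : |t| * (2 * (|v - w| / v)) * (b * v / (2 * S)) = 2 * |t| * (b / (2 * S)) * |v - w| := by
    field_simp
  have h4 : b * |v - w| / (2 * S) = b / (2 * S) * |v - w| := by ring
  rw [h3] at h2
  rw [h4]
  linarith

private theorem WNI_lip (a b S t v w : ℝ) (ha : 0 < a) (hb : 0 < b) (hS : 0 < S) (hv : 0 < v) (hw : 0 < w) :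
    ‖WNI_G a b S t v - WNI_G a b S t w‖ ≤ (2 * |t| + 1) * (b / (2 * S)) * |v - w| := by
  rcases le_total v w with h | h
  · exact WNI_lip1 a b S t v w ha hb hS hv h
  · rw [norm_sub_rev, abs_sub_comm]
    exact WNI_lip1 a b S t w v ha hb hS hw h

/-- the primitive -/
private noncomputable def WNI_P (a b S t v : ℝ) : ℂ :=
  ((b / (4 * a) : ℝ) : ℂ) * Complex.exp ((1 + t * Complex.I) * ((Real.log (a * v ^ 2 / S) : ℝ) : ℂ)) / (1 + t * Complex.I)

private theorem WNI_ne (t : ℝ) : (1 + t * Complex.I : ℂ) ≠ 0 := by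
  intro h
  have := congrArg Complex.re h
  simp at this

private theorem WNI_der (a b S t v : ℝ) (ha : 0 < a) (hS : 0 < S) (hv : 0 < v) :
    HasDerivAt (WNI_P a b S t) (WNI_G a b S t v) v := by
  have hne := WNI_ne t
  have hpos : 0 < a * v ^ 2 / S := by positivity
  have h1 : HasDerivAt (fun v : ℝ => a * v ^ 2 / S) (a * (2 * v) / S) v := by
    have := ((hasDerivAt_pow 2 v).const_mul a).div_const S
    simpa using this
  have h2 : HasDerivAt (fun v : ℝ => Real.log (a * v ^ 2 / S)) (2 / v) v := by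
    have := h1.log hpos.ne'
    have e : a * (2 * v) / S / (a * v ^ 2 / S) = 2 / v := by field_simp
    rwa [e] at this
  have h3 : HasDerivAt (fun v : ℝ => ((Real.log (a * v ^ 2 / S) : ℝ) : ℂ)) ((2 / v : ℝ) : ℂ) v := h2.ofReal_comp
  have h4 : HasDerivAt (fun v : ℝ => (1 + t * Complex.I) * ((Real.log (a * v ^ 2 / S) : ℝ) : ℂ)) ((1 + t * Complex.I) * ((2 / v : ℝ) : ℂ)) v :=
    h3.const_mul _
  have h5 := ((h4.cexp).const_mul ((b / (4 * a) : ℝ) : ℂ)).div_const (1 + t * Complex.I)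
  have e1 : Complex.exp ((1 + t * Complex.I) * ((Real.log (a * v ^ 2 / S) : ℝ) : ℂ)) = ((a * v ^ 2 / S : ℝ) : ℂ) * nit t (a * v ^ 2 / S) := by
    have e2 : (1 + t * Complex.I) * ((Real.log (a * v ^ 2 / S) : ℝ) : ℂ) = ((Real.log (a * v ^ 2 / S) : ℝ) : ℂ) + ((t * Real.log (a * v ^ 2 / S) : ℝ) : ℂ) * Complex.I := by
      push_cast
      ring
    rw [e2, Complex.exp_add, ← Complex.ofReal_exp, Real.exp_log hpos]
    rfl
  have e3 : ((b / (4 * a) : ℝ) : ℂ) * (Complex.exp ((1 + t * Complex.I) * ((Real.log (a * v ^ 2 / S) : ℝ) : ℂ)) *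
      ((1 + t * Complex.I) * ((2 / v : ℝ) : ℂ))) / (1 + t * Complex.I) = WNI_G a b S t v := by
    rw [e1]
    unfold WNI_G
    have ha' : (a : ℂ) ≠ 0 := by exact_mod_cast ha.ne'
    have hv' : (v : ℂ) ≠ 0 := by exact_mod_cast hv.ne'
    have hS' : (S : ℂ) ≠ 0 := by exact_mod_cast hS.ne'
    push_cast
    field_simp
    ring
  rw [← e3]
  exact h5

private theorem WNI_end (S a X : ℝ) (hS : 0 < S) (ha : 0 < a) (hX : 0 ≤ X) : a * √(X * S / a) ^ 2 / S = X := by
  rw [Real.sq_sqrt (by positivity)]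
  field_simp

private theorem WNI_pw (X : ℕ) (hX : 1 ≤ X) (t : ℝ) :
    Complex.exp ((1 + t * Complex.I) * ((Real.log (X : ℝ) : ℝ) : ℂ)) = ((X : ℝ) : ℂ) ^ (1 + t * Complex.I) := by
  have h : ((X : ℝ) : ℂ) ≠ 0 := by
    have : (X : ℝ) ≠ 0 := by positivity
    exact_mod_cast this
  rw [Complex.cpow_def_of_ne_zero h, ← Complex.ofReal_log (by positivity), mul_comm]

private theorem WNI_ab (sg : ℤ) (hsg : sg = 1 ∨ sg = -1) :
    0 < ra sg ∧ 0 < rb sg ∧ 1 ≤ ra sg ∧ rb sg ^ 2 ≤ ra sg ∧ rb sg / (4 * ra sg) = 1 / (4 * √8) := by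
  have h8 := WNI_s8
  have h0 : (0 : ℝ) < √8 := Real.sqrt_pos.mpr (by norm_num)
  rcases hsg with rfl | rfl
  · unfold ra rb
    rw [if_pos rfl, if_pos rfl]
    refine ⟨by norm_num, by positivity, le_rfl, ?_, ?_⟩
    · rw [div_pow, sq (√8), h8]
      norm_num
    · field_simp
  · unfold ra rb
    rw [if_neg (by norm_num), if_neg (by norm_num)]
    refine ⟨by norm_num, h0, by norm_num, ?_, ?_⟩
    · rw [sq, h8]
    · field_simp
      nlinarith

theorem WNI : WNI_stmt := by
  classical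
  refine ⟨2, by norm_num, ?_⟩
  intro M M' q c₀ sg t u hsg hq hM hMM hu
  obtain ⟨ha, hb, ha1, hab, hab4⟩ := WNI_ab sg hsg
  obtain ⟨hu1, hu2⟩ := abs_le.1 hu
  set a := ra sg with hadef
  set b := rb sg with hbdef
  set S := Real.cosh (u / 2) ^ 2 with hSdef
  have hS1 : 1 ≤ S := by
    have := Real.one_le_cosh (u / 2)
    rw [hSdef]
    nlinarith
  have hS2 : S ≤ 2 := WNI_c2 u hu1 hu2
  have hS0 : 0 < S := by linarith
  have hMr : (1 : ℝ) ≤ M := by exact_mod_cast hM
  have hMMr : (M : ℝ) ≤ M' := by exact_mod_cast hMM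
  have hM'r : (1 : ℝ) ≤ M' := hMr.trans hMMr
  set A := √((M : ℝ) * S / a) with hA
  set B := √((M' : ℝ) * S / a) with hB
  have hA0 : 0 < A := Real.sqrt_pos.2 (by positivity)
  have hAB : A ≤ B := Real.sqrt_le_sqrt (by gcongr)
  have hB0 : 0 < B := lt_of_lt_of_le hA0 hAB
  have hAe : a * A ^ 2 / S = M := WNI_end S a M hS0 ha (by linarith)
  have hBe : a * B ^ 2 / S = M' := WNI_end S a M' hS0 ha (by linarith)
  -- the condition
  have hcond : ∀ v : ℝ, 0 ≤ v → (((M : ℝ) < a * v ^ 2 / S ↔ A < v) ∧ (a * v ^ 2 / S ≤ M' ↔ v ≤ B)) := by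
    intro v hv
    constructor
    · rw [← hAe, div_lt_div_iff_of_pos_right hS0, mul_lt_mul_iff_right₀ ha, sq_lt_sq₀ hA0.le hv]
    · rw [← hBe, div_le_div_iff_of_pos_right hS0, mul_le_mul_iff_right₀ ha, sq_le_sq₀ hv hB0.le]
  -- the supremum
  set K := b * B / (2 * S) with hK
  have hK0 : 0 < K := by positivity
  have hKM : K ≤ √(M' : ℝ) / 2 := by
    have hBsq : B ^ 2 = (M' : ℝ) * S / a := Real.sq_sqrt (by positivity)
    have hMsq : √(M' : ℝ) ^ 2 = M' := Real.sq_sqrt (by linarith)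
    have h1 : K ^ 2 ≤ (√(M' : ℝ) / 2) ^ 2 := by
      rw [hK, div_pow, mul_pow, div_pow, hMsq, hBsq]
      have h2 : b ^ 2 * ((M' : ℝ) * S / a) / (2 * S) ^ 2 = (b ^ 2 / a) * (M' / (4 * S)) := by
        field_simp
        ring
      rw [h2]
      have h3 : b ^ 2 / a ≤ 1 := (div_le_one ha).2 hab
      have h4 : (M' : ℝ) / (4 * S) ≤ M' / 2 ^ 2 := by
        apply div_le_div_of_nonneg_left (by linarith) (by norm_num)
        linarith
      calc b ^ 2 / a * (M' / (4 * S)) ≤ 1 * (M' / 2 ^ 2) := mul_le_mul h3 h4 (by positivity) (by norm_num)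
        _ = _ := one_mul _
    exact le_of_sq_le_sq h1 (by positivity)
  set F : ℝ → ℂ := fun v => WNI_G a b S t v / (K : ℂ) with hF
  have hKc : (K : ℂ) ≠ 0 := by exact_mod_cast hK0.ne'
  have hKn : ‖(K : ℂ)‖ = K := by rw [Complex.norm_real, Real.norm_eq_abs, abs_of_pos hK0]
  have hF1 : ∀ v, A ≤ v → v ≤ B → ‖F v‖ ≤ 1 := by
    intro v h1 h2
    rw [hF]
    show ‖WNI_G a b S t v / (K : ℂ)‖ ≤ 1
    rw [norm_div, hKn, WNI_norm a b S t v hb hS0 (by linarith), div_le_one hK0, hK]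
    gcongr
  have hF2 : ∀ v w, A ≤ v → v ≤ B → A ≤ w → w ≤ B → ‖F v - F w‖ ≤ (2 * |t| + 1) / B * |v - w| := by
    intro v w h1 _ h3 _
    rw [hF]
    show ‖WNI_G a b S t v / (K : ℂ) - WNI_G a b S t w / (K : ℂ)‖ ≤ _
    rw [← sub_div, norm_div, hKn, div_le_iff₀ hK0]
    refine (WNI_lip a b S t v w ha hb hS0 (by linarith) (by linarith)).trans (le_of_eq ?_)
    rw [hK]
    field_simp
  set T := (Icc (1 : ℤ) (2 * M')).filter (fun n => (q : ℤ) ∣ n - c₀ ∧ (M : ℝ) < a * (n : ℝ) ^ 2 / S ∧ a * (n : ℝ) ^ 2 / S ≤ M') with hT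
  have hsum : ∑ n ∈ Icc (1 : ℤ) (2 * M') with (q : ℤ) ∣ n - c₀, gI sg M M' t n u = ∑ n ∈ T, WNI_G a b S t n := by
    rw [hT, Finset.sum_filter, Finset.sum_filter]
    refine Finset.sum_congr rfl fun n _ => ?_
    by_cases h1 : (q : ℤ) ∣ n - c₀
    · rw [if_pos h1]
      unfold gI
      by_cases h2 : (M : ℝ) < a * (n : ℝ) ^ 2 / S ∧ a * (n : ℝ) ^ 2 / S ≤ M'
      · rw [if_pos h2, if_pos ⟨h1, h2⟩]
        rfl
      · rw [if_neg h2, if_neg (fun h => h2 h.2)]
    · rw [if_neg h1, if_neg (fun h => h1 h.1)]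
  have hTS1 : ∀ m ∈ T, A ≤ (m : ℝ) ∧ (m : ℝ) ≤ B ∧ (q : ℤ) ∣ m - c₀ := by
    intro m hm
    rw [hT, mem_filter, mem_Icc] at hm
    obtain ⟨⟨h1, _⟩, h2, h3, h4⟩ := hm
    have hm0 : (0 : ℝ) ≤ m := by exact_mod_cast (by omega : (0 : ℤ) ≤ m)
    exact ⟨((hcond m hm0).1.1 h3).le, (hcond m hm0).2.1 h4, h2⟩
  have hB2 : B ≤ 2 * M' := by
    rw [hB]
    apply Real.sqrt_le_iff.2 ⟨by linarith, ?_⟩
    have h1 : (M' : ℝ) * S / a ≤ M' * 2 / 1 := by
      apply div_le_div₀ (by linarith) _ (by norm_num) ha1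
      exact mul_le_mul_of_nonneg_left hS2 (by linarith)
    nlinarith
  have hTS2 : ∀ m : ℤ, A < m → (m : ℝ) < B → (q : ℤ) ∣ m - c₀ → m ∈ T := by
    intro m h1 h2 h3
    have hm0 : (0 : ℝ) < m := lt_trans hA0 h1
    rw [hT, mem_filter, mem_Icc]
    refine ⟨⟨?_, ?_⟩, h3, (hcond m hm0.le).1.2 h1, (hcond m hm0.le).2.2 h2.le⟩
    · have : (0 : ℤ) < m := by exact_mod_cast hm0
      omega
    · have : (m : ℝ) ≤ 2 * M' := h2.le.trans hB2
      exact_mod_cast this
  have hgl := WNI_gl F A B ((2 * |t| + 1) / B) q c₀ T hq (by positivity) hAB hF1 hF2 hTS1 hTS2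
  -- the integral
  have hint : ∫ v in A..B, WNI_G a b S t v = rhoT M M' t := by
    have hd : ∀ v ∈ Set.uIcc A B, HasDerivAt (WNI_P a b S t) (WNI_G a b S t v) v := by
      intro v hv
      rw [Set.uIcc_of_le hAB] at hv
      exact WNI_der a b S t v ha hS0 (lt_of_lt_of_le hA0 hv.1)
    have hci : ContinuousOn (WNI_G a b S t) (Set.uIcc A B) := by
      intro v hv
      rw [Set.uIcc_of_le hAB] at hv
      have hv0 : 0 < v := lt_of_lt_of_le hA0 hv.1
      refine ContinuousAt.continuousWithinAt ?_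
      unfold WNI_G nit
      have hne : a * v ^ 2 / S ≠ 0 := by positivity
      have h1 : ContinuousAt (fun v : ℝ => a * v ^ 2 / S) v := by fun_prop
      have h2 : ContinuousAt (fun v : ℝ => Real.log (a * v ^ 2 / S)) v := h1.log hne
      fun_prop
    rw [intervalIntegral.integral_eq_sub_of_hasDerivAt hd hci.intervalIntegrable]
    unfold WNI_P rhoT
    rw [hAe, hBe, WNI_pw M hM t, WNI_pw M' (hM.trans hMM) t, hab4]
    have hne := WNI_ne t
    have h8 : ((4 * √8 : ℝ) : ℂ) ≠ 0 := by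
      have : (4 * √8 : ℝ) ≠ 0 := by positivity
      exact_mod_cast this
    push_cast at h8 ⊢
    field_simp
  have hGF : ∀ v, WNI_G a b S t v = F v * (K : ℂ) := by
    intro v
    rw [hF]
    show _ = WNI_G a b S t v / (K : ℂ) * (K : ℂ)
    rw [div_mul_cancel₀ _ hKc]
  have e1 : ∑ n ∈ T, WNI_G a b S t n = (∑ n ∈ T, F n) * (K : ℂ) := by
    rw [Finset.sum_mul]
    exact Finset.sum_congr rfl fun n _ => hGF n
  have e2 : ∫ v in A..B, WNI_G a b S t v = (∫ v in A..B, F v) * (K : ℂ) := by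
    rw [← intervalIntegral.integral_mul_const]
    exact intervalIntegral.integral_congr fun v _ => hGF v
  rw [hsum, ← hint, e1, e2, ← mul_assoc, ← sub_mul, norm_mul, hKn]
  have h5 : (2 * |t| + 1) / B * (B - A) ≤ 2 * |t| + 1 := by
    rw [div_mul_eq_mul_div, div_le_iff₀ hB0]
    have : 0 ≤ |t| := abs_nonneg t
    nlinarith
  have ht0 : 0 ≤ |t| := abs_nonneg t
  calc _ ≤ (3 + (2 * |t| + 1) / B * (B - A)) * K := mul_le_mul_of_nonneg_right hgl hK0.le
    _ ≤ (4 + 2 * |t|) * (√(M' : ℝ) / 2) := by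
      apply mul_le_mul _ hKM hK0.le (by positivity)
      linarith
    _ ≤ 2 * (1 + |t|) * √(M' : ℝ) := by
      have : 0 ≤ √(M' : ℝ) := Real.sqrt_nonneg _
      nlinarith

end Pool.Agent.EU
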